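import Mathlib
import Pool.Agent.Lib.MP_bf61d2_nt.Trim.Places

set_option autoImplicit false

/-!
The sum of `q_v ^ (-1 - η)` over the finite places of a number field.
-/

namespace NumberField
end NumberField

namespace Pool.Agent.Lib.MP_bf61d2_nt.Edge

open Filter Topology NumberField IsDedekindDomain

variable {K : Type*} [Field K] [NumberField K]

section Ideals

variable (S : Finset (HeightOneSpectrum (𝓞 K)))

/-- The ideal with given exponents. -/
noncomputable def idl (e : S → ℕ) : Ideal (𝓞 K) := ∏ i : S, i.1.asIdeal ^ e i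

lemma pow_dvd_idl_iff (e : S → ℕ) (i : S) (k : ℕ) : i.1.asIdeal ^ k ∣ idl S e ↔ k ≤ e i := by
  classical
  have hprime : Prime i.1.asIdeal := i.1.prime
  have hne : i.1.asIdeal ≠ 0 := i.1.ne_bot
  have hsplit : idl S e = i.1.asIdeal ^ e i * ∏ j ∈ Finset.univ.erase i, j.1.asIdeal ^ e j := by
    rw [idl]
    exact (Finset.mul_prod_erase _ (fun j : S => j.1.asIdeal ^ e j) (Finset.mem_univ i)).symm
  constructor
  · intro h
    by_contra hcon
    have hlt : e i + 1 ≤ k := by omega
    have h1 : i.1.asIdeal ^ (e i + 1) ∣ idl S e := (pow_dvd_pow _ hlt).trans h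
    rw [hsplit, pow_succ] at h1
    have h2 := (mul_dvd_mul_iff_left (pow_ne_zero (e i) hne)).mp h1
    obtain ⟨j, hj, h3⟩ := (Prime.dvd_finsetProd_iff hprime _).mp h2
    have h4 := hprime.dvd_of_dvd_pow h3
    have h5 : j.1.asIdeal ≤ i.1.asIdeal := Ideal.le_of_dvd h4
    have h6 : j.1.asIdeal = i.1.asIdeal :=
      j.1.isMaximal.eq_of_le i.1.isPrime.ne_top h5
    exact (Finset.ne_of_mem_erase hj) (Subtype.ext (HeightOneSpectrum.ext h6))
  · intro h
    rw [hsplit]
    exact (pow_dvd_pow _ h).mul_right _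

lemma idl_injective : Function.Injective (idl S) := by
  intro e e' h
  ext i
  apply le_antisymm
  · rw [← pow_dvd_idl_iff S e' i, ← h, pow_dvd_idl_iff]
  · rw [← pow_dvd_idl_iff S e i, h, pow_dvd_idl_iff]

lemma absNorm_idl (e : S → ℕ) : Ideal.absNorm (idl S e) = ∏ i : S, nm i.1 ^ e i := by
  rw [idl, map_prod]
  refine Finset.prod_congr rfl fun i _ => ?_
  rw [map_pow]; rfl

end Ideals

/-- The number of ideals of given norm. -/
noncomputable def idn (K : Type*) [Field K] [NumberField K] (n : ℕ) : ℕ :=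
  Nat.card {I : Ideal (𝓞 K) // Ideal.absNorm I = n}

lemma sum_ideals_le (σ : ℝ) (hs : Summable fun n : ℕ => (idn K n : ℝ) * (n : ℝ) ^ (-σ))
    (T : Finset (Ideal (𝓞 K))) :
    ∑ I ∈ T, (Ideal.absNorm I : ℝ) ^ (-σ) ≤ ∑' n : ℕ, (idn K n : ℝ) * (n : ℝ) ^ (-σ) := by
  classical
  rw [← Finset.sum_fiberwise_of_maps_to (g := fun I => Ideal.absNorm I)
    (t := T.image fun I => Ideal.absNorm I) (fun I hI => Finset.mem_image_of_mem _ hI)]
  calc ∑ n ∈ T.image (fun I => Ideal.absNorm I), ∑ I ∈ T with Ideal.absNorm I = n,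
        (Ideal.absNorm I : ℝ) ^ (-σ)
      ≤ ∑ n ∈ T.image (fun I => Ideal.absNorm I), (idn K n : ℝ) * (n : ℝ) ^ (-σ) := by
        refine Finset.sum_le_sum fun n _ => ?_
        have e : ∑ I ∈ T with Ideal.absNorm I = n, (Ideal.absNorm I : ℝ) ^ (-σ) =
            ∑ I ∈ T with Ideal.absNorm I = n, (n : ℝ) ^ (-σ) :=
          Finset.sum_congr rfl fun I hI => by rw [(Finset.mem_filter.mp hI).2]
        rw [e, Finset.sum_const, nsmul_eq_mul]
        refine mul_le_mul_of_nonneg_right ?_ (by positivity)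
        have hfin : Finite {I : Ideal (𝓞 K) // Ideal.absNorm I = n} :=
          Ideal.finite_setOfPred_absNorm_eq n
        have : Fintype {I : Ideal (𝓞 K) // Ideal.absNorm I = n} := Fintype.ofFinite _
        rw [idn, Nat.card_eq_fintype_card]
        norm_cast
        rw [← Fintype.card_coe]
        exact Fintype.card_le_of_injective
          (fun I => ⟨I.1, (Finset.mem_filter.mp I.2).2⟩)
          (fun I J h => Subtype.ext (by simpa using h))
    _ ≤ _ := hs.sum_le_tsum _ fun n _ => by positivity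

lemma dedekindZeta_eq {σ : ℝ} (hσ : 0 < σ) : dedekindZeta K (σ : ℂ) =
    ((∑' n : ℕ, (idn K n : ℝ) * (n : ℝ) ^ (-σ) : ℝ) : ℂ) := by
  rw [dedekindZeta, LSeries, Complex.ofReal_tsum]
  refine tsum_congr fun n => ?_
  rw [LSeries.term_def]
  split_ifs with h
  · subst h
    rw [Nat.cast_zero, Real.zero_rpow (by simpa using hσ.ne')]
    simp
  · push_cast
    rw [Complex.ofReal_cpow (by positivity)]
    push_cast
    rw [Complex.cpow_neg, div_eq_mul_inv]
    rfl

end Pool.Agent.Lib.MP_bf61d2_nt.Edge
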